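import Pool.Agent.H90.STK.Stmts

/-!
# Module PR2: the product of two laws
-/

set_option autoImplicit false

namespace Pool.STK

open Finset Real MeasureTheory
open Pool.Agent.H49.Ent Pool.Agent.H32.Dense

namespace PR2

lemma law_unit {Ω : Type} [Fintype Ω] {p : Ω → ℝ} (h1 : ∑ ω, p ω = 1) (z : Unit) :
    law p (fun _ => ()) z = 1 := by
  unfold law
  simpa using h1

lemma pr2_eq_glue {Ω Ω' : Type} [Fintype Ω] [Fintype Ω'] {p : Ω → ℝ} {q : Ω' → ℝ}
    (h1 : ∑ ω, p ω = 1) :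
    pr2 p q = glue p q (fun _ => ()) (fun _ => ()) := by
  funext w
  unfold pr2 glue
  rw [law_unit h1]
  simp

end PR2

theorem pr2_thm : PR2Stmt := by
  intro Ω Ω' S T _ _ p q hp hq
  obtain ⟨hp0, hp1⟩ := hp
  obtain ⟨hq0, hq1⟩ := hq
  have hl : ∀ z, law p (fun _ => ()) z = law q (fun _ => ()) z := by
    intro z
    rw [PR2.law_unit hp1, PR2.law_unit hq1]
  rw [PR2.pr2_eq_glue hp1]
  refine ⟨⟨glue_nonneg hp0 hq0, ?_⟩, marg_fst hp0 hl, marg_snd hq0 hl, ?_⟩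
  · rw [sum_glue hp0 hl, hp1]
  · intro X Y
    rw [H_glue_pair hp0 hq0 hl (fun _ _ _ _ _ => rfl) (fun _ _ _ _ _ => rfl), H_const hp1]
    ring

end Pool.STK
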