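import Pool.Agent.H90.STK.Stmts

/-!
# Module CN3: the difference given the coarse line and given the coarse position
-/

set_option autoImplicit false

namespace Pool.STK

open Finset Real MeasureTheory
open Pool.Agent.H49.Ent Pool.Agent.H32.Dense

namespace CN3

/-- Floors of nearby numbers. -/
lemma floor_near {x y : ℝ} {L : ℝ} (h : |x - y| ≤ L) : |((⌊x⌋ - ⌊y⌋ : ℤ) : ℝ)| ≤ L + 1 := by
  have h1 := Int.floor_le x
  have h2 := Int.lt_floor_add_one x
  have h3 := Int.floor_le y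
  have h4 := Int.lt_floor_add_one y
  obtain ⟨h5, h6⟩ := abs_le.mp h
  push_cast
  rw [abs_le]
  constructor <;> linarith

/-- Numbers with the same floor. -/
lemma near_of_floor {x y : ℝ} (h : ⌊x⌋ = ⌊y⌋) : |x - y| ≤ 1 := by
  have h1 := Int.floor_le x
  have h2 := Int.lt_floor_add_one x
  have h3 := Int.floor_le y
  have h4 := Int.lt_floor_add_one y
  rw [h] at h1 h2
  rw [abs_le]
  constructor <;> linarith

/-- The coarse line nearly determines the coarse position. -/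
lemma xp_near {Ω : Type} {m : ℕ} (u d : Ω → Fin m → ℝ) (t : ℝ) (h0 : 0 ≤ t) (h1 : t ≤ 1)
    (j : ℕ) {ω ω' : Ω} (h : Ln u d j ω = Ln u d j ω') (k : Fin m) :
    |((Xp u d t j ω k - Xp u d t j ω' k : ℤ) : ℝ)| ≤ 3 := by
  unfold Ln Fl at h
  obtain ⟨hu, hd⟩ := Prod.ext_iff.mp h
  have hu' : ⌊(2 : ℝ) ^ j * u ω k⌋ = ⌊(2 : ℝ) ^ j * u ω' k⌋ := congrFun hu k
  have hd' : ⌊(2 : ℝ) ^ j * d ω k⌋ = ⌊(2 : ℝ) ^ j * d ω' k⌋ := congrFun hd k
  have a1 := near_of_floor hu'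
  have a2 := near_of_floor hd'
  have a3 : |(2 : ℝ) ^ j * (u ω k + t * d ω k) - (2 : ℝ) ^ j * (u ω' k + t * d ω' k)| ≤ 2 := by
    have e : (2 : ℝ) ^ j * (u ω k + t * d ω k) - (2 : ℝ) ^ j * (u ω' k + t * d ω' k) =
        ((2 : ℝ) ^ j * u ω k - (2 : ℝ) ^ j * u ω' k) +
          t * ((2 : ℝ) ^ j * d ω k - (2 : ℝ) ^ j * d ω' k) := by ring
    rw [e]
    refine (abs_add_le _ _).trans ?_
    rw [abs_mul, abs_of_nonneg h0]
    nlinarith [abs_nonneg ((2 : ℝ) ^ j * d ω k - (2 : ℝ) ^ j * d ω' k)]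
  have a4 := floor_near a3
  norm_num at a4
  unfold Xp fl rd pt
  push_cast
  exact a4

end CN3

theorem cn3_thm : CN3Stmt := by
  intro m Ω ζ _ p u d Z hp k r t₀ t hW
  obtain ⟨hp0, hp1⟩ := hp
  obtain ⟨w0, w1, w2, w3⟩ := hW
  have hq : ∀ w, 0 ≤ dbl p (bb u d Z k r) w := dbl_nonneg hp0
  have hq1 : ∑ w, dbl p (bb u d Z k r) w = 1 := by rw [(dbl_fst hp0).sum, hp1]
  have h1 := CH_le_add hq (zz u d t₀ ((r + 1) * k)) (fun w => Xp u d t (r * k) w.1)
    (fun w => bb u d Z k r w.1)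
  have h2 : CH (dbl p (bb u d Z k r)) (zz u d t₀ ((r + 1) * k))
      (fun w => (Xp u d t (r * k) w.1, bb u d Z k r w.1)) ≤
      CH (dbl p (bb u d Z k r)) (zz u d t₀ ((r + 1) * k))
      (fun w => (Xp u d t (r * k) w.1, Z w.1)) := by
    refine CH_mono_cond hq ?_
    intro w w' _ _ h
    simp only [Prod.mk.injEq, bb] at h ⊢
    exact ⟨h.1, h.2.2⟩
  have h3 : CH (dbl p (bb u d Z k r)) (fun w => Xp u d t (r * k) w.1)
      (fun w => bb u d Z k r w.1) ≤ cc m := by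
    have h4 := CH_le_vec hq hq1 (fun w => Xp u d t (r * k) w.1)
      (fun w => bb u d Z k r w.1) (fun _ => 3) (by
        intro w w' _ _ h i
        have h' : Ln u d (r * k) w.1 = Ln u d (r * k) w'.1 := (Prod.ext_iff.mp h).1
        exact CN3.xp_near u d t (w0.trans w1) w3 (r * k) h' i)
    rw [Ex_const hq1] at h4
    refine h4.trans ?_
    unfold cc
    refine mul_le_mul_of_nonneg_left ?_ (Nat.cast_nonneg m)
    exact Real.log_le_log (by norm_num) (by norm_num)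
  linarith

end Pool.STK
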